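import Pool.Agent.H23.DF.TargetsG
import Pool.Agent.H70.TMB.DV

/-!
# (DV) the divisor bound
-/

set_option autoImplicit false

open NumberField NumberField.InfinitePlace Set
open scoped nonZeroDivisors

namespace Pool.Agent.H13.DF.DV

open Pool.Agent.H25.HK Pool.Agent.H23.LB Pool.Agent.H23.LC Pool.Agent.H29.TC
open Pool.Agent.H28.RC (idl)
open Pool.Agent.H29.DW (wv Pos rv)
open Pool.Agent.H31.SW (DD PP dK)
open Pool.Agent.H27.TM (Dl)
open Pool.Agent.H23.DM (Mz de)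
open Pool.Agent.H23.DF
open Pool.Agent.H70.TMB.DV (idl_mul idl_eq US quot_mem DD_one)

theorem alg {A : Type} [Semifield A] {L H F M T D d : A} (hH : H ≠ 0) (hD : D ≠ 0) :
    (L * H * M)⁻¹ * D * d * ((H * (T * F⁻¹))⁻¹ * D)⁻¹ = T * d * (L * F * M)⁻¹ := by
  have h1 : H⁻¹ * H = 1 := inv_mul_cancel₀ hH
  have h2 : D * D⁻¹ = 1 := mul_inv_cancel₀ hD
  simp only [mul_inv, inv_inv]
  calc L⁻¹ * H⁻¹ * M⁻¹ * D * d * (H * (T * F⁻¹) * D⁻¹)
      = T * d * (L⁻¹ * F⁻¹ * M⁻¹) * (H⁻¹ * H) * (D * D⁻¹) := by ring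
    _ = T * d * (L⁻¹ * F⁻¹ * M⁻¹) := by rw [h1, h2, mul_one, mul_one]

section

variable {K : Type} [Field K] [NumberField K]

/-- the divisibility -/
theorem idl_le (hDU : T_DU) {l H F : Ideal (𝓞 K)} (hl : l ≠ ⊥) (hH : H ≠ ⊥) (hF : F ≠ ⊥)
    {M : FI K} (hM : M ≠ 0) (hN : Nh H F ≠ 0) (hMz : Mz K F ≠ 0) {ν δ : K} (hν : ν ∈ Nh H F)
    (hδ : δ ≠ 0) (h2 : 2 * δ ∈ ((l * F : Ideal (𝓞 K)) : FI K) * M)
    (hx : ν / δ ∈ du K (((l * H : Ideal (𝓞 K)) : FI K) * M)) :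
    idl K (Nh H F) ν ≤ idl K (((l * F : Ideal (𝓞 K)) : FI K) * M) (2 * δ) := by
  have hl' : (l : FI K) ≠ 0 := FractionalIdeal.coeIdeal_ne_zero.mpr hl
  have hH' : (H : FI K) ≠ 0 := FractionalIdeal.coeIdeal_ne_zero.mpr hH
  have hF' : (F : FI K) ≠ 0 := FractionalIdeal.coeIdeal_ne_zero.mpr hF
  have hN2 : ((l * H : Ideal (𝓞 K)) : FI K) * M ≠ 0 := by
    rw [FractionalIdeal.coeIdeal_mul]
    exact mul_ne_zero (mul_ne_zero hl' hH') hM
  have hL : ((l * F : Ideal (𝓞 K)) : FI K) * M ≠ 0 := by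
    rw [FractionalIdeal.coeIdeal_mul]
    exact mul_ne_zero (mul_ne_zero hl' hF') hM
  have hD : (du K 1 : FI K) ≠ 0 := (hDU K 1 one_ne_zero).1
  have h1 : (FractionalIdeal.spanSingleton (𝓞 K)⁰ (ν / δ) : FI K) ≤
      ((l : FI K) * (H : FI K) * M)⁻¹ * du K 1 := by
    have h := (hDU K _ hN2).2.2.1
    rw [FractionalIdeal.coeIdeal_mul] at h
    rw [← h, ← FractionalIdeal.coeIdeal_mul]
    exact (FractionalIdeal.spanSingleton_le_iff_mem).2 hx
  have hHM : (H : FI K) * Mz K F ≠ 0 := mul_ne_zero hH' hMz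
  have h3 : Nh H F = ((H : FI K) *
      (((Ideal.span {(2 : 𝓞 K)} : Ideal (𝓞 K)) : FI K) * (F : FI K)⁻¹))⁻¹ * du K 1 :=
    (hDU K _ hHM).2.2.1
  have h4 : (FractionalIdeal.spanSingleton (𝓞 K)⁰ (2 * δ) : FI K) =
      ((Ideal.span {(2 : 𝓞 K)} : Ideal (𝓞 K)) : FI K) *
        FractionalIdeal.spanSingleton (𝓞 K)⁰ δ := by
    rw [FractionalIdeal.coeIdeal_span_singleton, FractionalIdeal.spanSingleton_mul_spanSingleton]
    congr 1
  have h5 : (FractionalIdeal.spanSingleton (𝓞 K)⁰ ν : FI K) =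
      FractionalIdeal.spanSingleton (𝓞 K)⁰ (ν / δ) *
        FractionalIdeal.spanSingleton (𝓞 K)⁰ δ := by
    rw [FractionalIdeal.spanSingleton_mul_spanSingleton, div_mul_cancel₀ _ hδ]
  rw [← FractionalIdeal.coeIdeal_le_coeIdeal K, idl_eq hN hν, idl_eq hL h2, h5, h4,
    FractionalIdeal.coeIdeal_mul l F]
  have h6 := mul_le_mul_left (mul_le_mul_left h1 (FractionalIdeal.spanSingleton (𝓞 K)⁰ δ))
    (Nh H F)⁻¹
  refine le_trans h6 (le_of_eq ?_)
  rw [h3]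
  exact alg hH' hD

/-- the norm of the ideal of `ν` -/
theorem nf_idl (hLN : F_LN) {H F : Ideal (𝓞 K)} (hH : H ≠ ⊥) (hF : F ≠ ⊥) {ν : K}
    (hν : ν ∈ Nh H F) : Nf K (idl K (Nh H F) ν) = 2 ^ Module.finrank ℚ K *
      (dK K * (Nf K H / Nf K F) * ∏ v : InfinitePlace K, ‖v.embedding ν‖ ^ v.mult) := by
  obtain ⟨-, hN, -, hD, -, -⟩ := hLN K H F hH hF
  have h1 := congrArg FractionalIdeal.absNorm (idl_mul hN hν)
  rw [map_mul, FractionalIdeal.coeIdeal_absNorm, FractionalIdeal.absNorm_span_singleton] at h1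
  have h2 : (Ideal.absNorm (idl K (Nh H F) ν) : ℝ) * (FractionalIdeal.absNorm (Nh H F) : ℝ) =
      |((Algebra.norm ℚ ν : ℚ) : ℝ)| := by
    exact_mod_cast h1
  have h3 := hD 0
  unfold DD at h3
  simp only [Pi.zero_apply, mul_zero, Finset.sum_const_zero, neg_zero, zero_div, Real.exp_zero,
    one_mul] at h3
  have h4 : (FractionalIdeal.absNorm (Nh H F) : ℝ) ≠ 0 := by
    have : FractionalIdeal.absNorm (Nh H F) ≠ 0 := by
      rw [Ne, FractionalIdeal.absNorm_eq_zero_iff]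
      exact hN
    exact_mod_cast this
  have h5 : ∏ v : InfinitePlace K, ‖v.embedding ν‖ ^ v.mult = |((Algebra.norm ℚ ν : ℚ) : ℝ)| := by
    rw [← Rat.cast_abs, ← InfinitePlace.prod_eq_abs_norm]
    refine Finset.prod_congr rfl fun v _ => ?_
    rw [InfinitePlace.norm_embedding_eq]
  rw [h5, ← h2]
  have h6 : (2 : ℝ) ^ Module.finrank ℚ K * dK K * (Nf K H / Nf K F) *
      (FractionalIdeal.absNorm (Nh H F) : ℝ) = 1 := by
    rw [← h3]
    field_simp
  calc Nf K (idl K (Nh H F) ν) = (Ideal.absNorm (idl K (Nh H F) ν) : ℝ) *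
        (2 ^ Module.finrank ℚ K * dK K * (Nf K H / Nf K F) *
          (FractionalIdeal.absNorm (Nh H F) : ℝ)) := by
        rw [h6, mul_one]
        rfl
    _ = _ := by ring

end

theorem pf_DV (hCU : Pool.Agent.H31.SW.W_CU) (hDT : Pool.Agent.H29.TC.T_DV)
    (hDU : Pool.Agent.H25.HK.T_DU) (hDL : Pool.Agent.H27.TM.M_DL) (hLN : F_LN) : F_DV := by
  classical
  intro n hn ε hε
  obtain ⟨C₁, hC₁⟩ := hDT n ε hε
  obtain ⟨C₂, hC₂, hCU'⟩ := hCU n hn
  obtain ⟨C₃, hC₃, h3'⟩ := hDL n hn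
  refine ⟨max C₃ (C₂ * (1 + 2 ^ n) * (|C₁| * ((2 : ℝ) ^ n) ^ ε)),
    le_trans hC₃ (le_max_left _ _), ?_⟩
  intro K _ _ hK l H F M y ω α A hl hH hF hM hω hα hA
  obtain ⟨hMz, hN, -, -, hjM, -⟩ := hLN K H F hH hF
  have hlF : l * F ≠ ⊥ := mul_ne_zero hl hF
  obtain ⟨hL, hDDL⟩ := hjM (l * F) M y hlF hM
  have hAD : A ⊆ Dl (((l * F : Ideal (𝓞 K)) : FI K) * M) y ω α := fun δ hδ => hA δ hδ
  obtain ⟨hfin, hcard, -⟩ := h3' K hK _ y ω α hL hω hα
  have hAf : A.Finite := hfin.subset hAD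
  have hNfle : Nf K (l * F) = Nf K l * Nf K F := by
    unfold Nf
    rw [map_mul, Nat.cast_mul]
  have hDDL' : DD (((l * F : Ideal (𝓞 K)) : FI K) * M) y = DD M y / (Nf K l * Nf K F) := by
    rw [hDDL, hNfle]
  refine ⟨hAf, ?_⟩
  intro ν
  refine ⟨Nat.cast_nonneg _, ?_, ?_⟩
  · have h3 : de A (du K (((l * H : Ideal (𝓞 K)) : FI K) * M)) ν ≤
        ((Dl (((l * F : Ideal (𝓞 K)) : FI K) * M) y ω α).ncard : ℝ) := by
      unfold de
      have h33 : {δ | δ ∈ A ∧ ν / δ ∈ du K (((l * H : Ideal (𝓞 K)) : FI K) * M)} ⊆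
          Dl (((l * F : Ideal (𝓞 K)) : FI K) * M) y ω α := fun δ hδ => hAD hδ.1
      exact_mod_cast Set.ncard_le_ncard h33 hfin
    have h4 : 0 ≤ DD (((l * F : Ideal (𝓞 K)) : FI K) * M) y * PP α := by
      by_contra h
      have h5 : C₃ * (DD (((l * F : Ideal (𝓞 K)) : FI K) * M) y * PP α) < 0 :=
        mul_neg_of_pos_of_neg (by linarith) (not_le.1 h)
      have h6 : (0 : ℝ) ≤ ((Dl (((l * F : Ideal (𝓞 K)) : FI K) * M) y ω α).ncard : ℝ) :=
        Nat.cast_nonneg _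
      linarith
    rw [hDDL'] at h4 hcard
    exact h3.trans (hcard.trans (mul_le_mul_of_nonneg_right (le_max_left _ _) h4))
  · intro hν hν0
    have hd : 0 ≤ dK K := abs_nonneg _
    have hPr : 0 ≤ ∏ v : InfinitePlace K, ‖v.embedding ν‖ ^ v.mult :=
      Finset.prod_nonneg fun v _ => pow_nonneg (norm_nonneg _) _
    have hNH : 0 ≤ Nf K H := Nat.cast_nonneg _
    have hP : 0 ≤ dK K * Nf K H * ∏ v : InfinitePlace K, ‖v.embedding ν‖ ^ v.mult :=
      mul_nonneg (mul_nonneg hd hNH) hPr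
    set P := dK K * Nf K H * ∏ v : InfinitePlace K, ‖v.embedding ν‖ ^ v.mult with hPdef
    have hP' : 0 ≤ P ^ ε := Real.rpow_nonneg hP _
    -- the small integers
    obtain ⟨hUf, hUc⟩ := hCU' K hK 1 0 (fun _ => 1) (fun _ => 0) (fun _ => 2) one_ne_zero
      ⟨fun v => by simp, fun v _ => by simp⟩ (fun v => by norm_num)
    have hPP : PP (fun _ : InfinitePlace K => (2 : ℝ)) = 2 ^ n := by
      unfold PP
      rw [Finset.prod_pow_eq_pow_sum, InfinitePlace.sum_mult_eq, hK]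
    have hU1 : (US K).Finite := hUf
    have hU2 : ((US K).ncard : ℝ) ≤ C₂ * (1 + 2 ^ n) := by
      have h1 : ((US K).ncard : ℝ) ≤ C₂ * (1 + DD (1 : FI K) 0 *
          PP (fun _ : InfinitePlace K => (2 : ℝ))) := hUc
      rwa [DD_one, hPP, one_mul] at h1
    unfold de
    set S : Set K := {δ | δ ∈ A ∧ ν / δ ∈ du K (((l * H : Ideal (𝓞 K)) : FI K) * M)} with hS
    have hδ0 : ∀ δ ∈ A, δ ≠ 0 := by
      intro δ hδ h0
      obtain ⟨v⟩ := (inferInstance : Nonempty (InfinitePlace K))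
      have h1 := ((hA δ hδ).2 v).1
      rw [h0] at h1
      unfold wv at h1
      rw [map_zero, zero_mul, zero_mul, norm_zero] at h1
      exact absurd h1 (not_le.2 (hα v))
    have hIne : idl K (Nh H F) ν ≠ ⊥ := by
      intro h0
      have h1 := idl_mul hN hν
      rw [h0, FractionalIdeal.coeIdeal_bot, zero_mul] at h1
      exact hν0 (FractionalIdeal.spanSingleton_eq_zero_iff.1 h1.symm)
    have hfinS : S.Finite := hAf.subset fun δ hδ => hδ.1
    have h1 : hfinS.toFinset.card ≤ (US K).ncard *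
        (hfinS.toFinset.image
          (fun δ => idl K (((l * F : Ideal (𝓞 K)) : FI K) * M) (2 * δ))).card := by
      refine Finset.card_le_mul_card_image _ _ ?_
      intro I hI
      obtain ⟨δ₀, hδ₀, hI₀⟩ := Finset.mem_image.1 hI
      rw [Set.Finite.mem_toFinset] at hδ₀
      rw [← Set.ncard_coe_finset]
      refine Set.ncard_le_ncard_of_injOn (fun δ => δ / δ₀) ?_ ?_ hU1
      · intro δ hδ
        rw [Finset.mem_coe, Finset.mem_filter, Set.Finite.mem_toFinset] at hδ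
        exact quot_mem hL hω hα (hAD hδ.1.1) (hAD hδ₀.1) (hδ.2.trans hI₀.symm)
      · intro δ _ δ' _ h
        have h0 := hδ0 _ hδ₀.1
        exact (div_left_inj' h0).1 h
    have h2 : (hfinS.toFinset.image
        (fun δ => idl K (((l * F : Ideal (𝓞 K)) : FI K) * M) (2 * δ))).card ≤
        (dvs K (idl K (Nh H F) ν)).card := by
      refine Finset.card_le_card fun I hI => ?_
      obtain ⟨δ, hδ, rfl⟩ := Finset.mem_image.1 hI
      rw [Set.Finite.mem_toFinset] at hδ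
      rw [Pool.Agent.H29.THC.pf_DF K _ hIne]
      exact idl_le hDU hl hH hF hM hN hMz hν (hδ0 _ hδ.1) (hA δ hδ.1).1 hδ.2
    have hNF : 1 ≤ Nf K F := by
      unfold Nf
      have : Ideal.absNorm F ≠ 0 := by
        rw [Ne, Ideal.absNorm_eq_zero_iff]
        exact hF
      exact_mod_cast Nat.one_le_iff_ne_zero.2 this
    have hle : Nf K (idl K (Nh H F) ν) ≤ 2 ^ n * P := by
      rw [nf_idl hLN hH hF hν, hK, hPdef]
      refine mul_le_mul_of_nonneg_left ?_ (by positivity)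
      refine mul_le_mul_of_nonneg_right ?_ hPr
      exact mul_le_mul_of_nonneg_left (div_le_self hNH hNF) hd
    have h3 : ((dvs K (idl K (Nh H F) ν)).card : ℝ) ≤ |C₁| * (((2 : ℝ) ^ n) ^ ε * P ^ ε) := by
      refine (hC₁ K hK _ hIne).trans ?_
      have h7 : (Nf K (idl K (Nh H F) ν)) ^ ε ≤ ((2 : ℝ) ^ n) ^ ε * P ^ ε := by
        rw [← Real.mul_rpow (by positivity) hP]
        exact Real.rpow_le_rpow (Nat.cast_nonneg _) hle hε.le
      have h8 : 0 ≤ (Nf K (idl K (Nh H F) ν)) ^ ε := Real.rpow_nonneg (Nat.cast_nonneg _) _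
      calc C₁ * (Nf K (idl K (Nh H F) ν)) ^ ε ≤ |C₁| * (Nf K (idl K (Nh H F) ν)) ^ ε :=
            mul_le_mul_of_nonneg_right (le_abs_self _) h8
        _ ≤ _ := mul_le_mul_of_nonneg_left h7 (abs_nonneg _)
    have h4 : S.ncard = hfinS.toFinset.card := Set.ncard_eq_toFinset_card S hfinS
    rw [h4]
    calc (hfinS.toFinset.card : ℝ) ≤ ((US K).ncard : ℝ) *
          ((hfinS.toFinset.image
            (fun δ => idl K (((l * F : Ideal (𝓞 K)) : FI K) * M) (2 * δ))).card : ℝ) := by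
          exact_mod_cast h1
      _ ≤ (C₂ * (1 + 2 ^ n)) * (|C₁| * (((2 : ℝ) ^ n) ^ ε * P ^ ε)) := by
          refine mul_le_mul hU2 (le_trans (by exact_mod_cast h2) h3) (Nat.cast_nonneg _) ?_
          positivity
      _ = (C₂ * (1 + 2 ^ n) * (|C₁| * ((2 : ℝ) ^ n) ^ ε)) * P ^ ε := by ring
      _ ≤ _ := mul_le_mul_of_nonneg_right (le_max_right _ _) hP'

end Pool.Agent.H13.DF.DV
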